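import Pool.Agent.Helper17.SL.GoalsG

/-!
# Project SL, packet RK2
-/

namespace Pool.Agent.Helper17.SL.PkRK2

open Module
open scoped nonZeroDivisors

universe y

/-- The integral points of a rational subspace of `ℚ ^ J` are a subgroup of rank equal to the
dimension. -/
theorem thm : S_RK2.{y} := by
  intro J _ W G h
  classical
  let f : G →ₗ[ℤ] W :=
    { toFun := fun s ↦ ⟨fun j ↦ ((s : J → ℤ) j : ℚ), (h s).1 s.2⟩
      map_add' := by
        intro a b; ext j; simp
      map_smul' := by
        intro a b; ext j; simp }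
  have hf : ∀ s : G, ∀ j, ((f s : W) : J → ℚ) j = ((s : J → ℤ) j : ℚ) := fun s j ↦ rfl
  have hloc : IsLocalizedModule (ℤ⁰) f := by
    refine ⟨?_, ?_, ?_⟩
    · intro x
      have hx : ((x : ℤ) : ℚ) ≠ 0 := by
        exact_mod_cast nonZeroDivisors.ne_zero x.2
      rw [Module.End.isUnit_iff]
      constructor
      · intro a b hab
        ext j
        have := congrArg (fun w : W ↦ (w : J → ℚ) j) hab
        simpa using this
      · intro b
        refine ⟨((x : ℤ) : ℚ)⁻¹ • b, ?_⟩
        ext j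
        simp
    · intro w
      have hden : ∃ n : ℤ, n ≠ 0 ∧ ∃ s : J → ℤ, ∀ j, (s j : ℚ) = n * (w : J → ℚ) j := by
        refine ⟨((∏ j, ((w : J → ℚ) j).den : ℕ) : ℤ), ?_, ?_⟩
        · exact_mod_cast Finset.prod_ne_zero_iff.2 fun j _ ↦ ((w : J → ℚ) j).den_nz
        · refine ⟨fun j ↦ (∏ i ∈ Finset.univ.erase j, (((w : J → ℚ) i).den : ℤ)) *
            ((w : J → ℚ) j).num, fun j ↦ ?_⟩
          have h1 : (∏ i, ((((w : J → ℚ) i).den : ℕ) : ℚ)) =
            (((w : J → ℚ) j).den : ℚ) * ∏ i ∈ Finset.univ.erase j, ((((w : J → ℚ) i).den : ℕ) : ℚ) :=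
            (Finset.mul_prod_erase Finset.univ _ (Finset.mem_univ j)).symm
          push_cast
          rw [h1]
          have h2 : (((w : J → ℚ) j).num : ℚ) = (((w : J → ℚ) j).den : ℚ) * (w : J → ℚ) j :=
            (Rat.den_mul_eq_num _).symm
          rw [h2]; ring
      obtain ⟨n, hn, s, hs⟩ := hden
      have hsG : s ∈ G := by
        rw [h]
        have : (fun j ↦ (s j : ℚ)) = (n : ℚ) • (w : J → ℚ) := by
          funext j; rw [hs j]; simp
        rw [this]; exact W.smul_mem _ w.2
      refine ⟨(⟨s, hsG⟩, ⟨n, mem_nonZeroDivisors_of_ne_zero hn⟩), ?_⟩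
      ext j
      rw [hf]
      simp only [hs j]
      simp [Submonoid.smul_def]
    · intro a b hab
      refine ⟨1, ?_⟩
      have : a = b := by
        ext j
        have := congrArg (fun w : W ↦ (w : J → ℚ) j) hab
        simp only [hf] at this
        exact_mod_cast this
      rw [this]
  have h1 : finrank ℤ W = finrank ℤ G := IsLocalizedModule.finrank_eq (ℤ⁰) f le_rfl
  have h2 : finrank ℚ W = finrank ℤ W := IsLocalization.finrank_eq ℚ (ℤ⁰) le_rfl
  rw [h2, h1]

end Pool.Agent.Helper17.SL.PkRK2
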